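import Mathlib

/-!
# Borel non-normality of the box power of `ω + 1` (`MP_d75401_gt`): the combinatorics

A point of the box power is a partial function; it is coded by `c : ℕ → ℕ`, where `c n = 0` means
that the `n`-th coordinate of the point is `ω`, and otherwise `c n` is the value.
-/

set_option autoImplicit false

namespace Pool.Agent.H96.BN

open Finset

/-- the part of `c` on `[m, b)`, as a finite set of pairs -/
def gr (c : ℕ → ℕ) (m b : ℕ) : Finset (ℕ × ℕ) :=
  ((Ico m b).filter fun i => c i ≠ 0).image fun i => (i, c i)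

/-- the code of a number and a finite set of pairs -/
def code (m : ℕ) (u : Finset (ℕ × ℕ)) : ℕ :=
  Nat.pair m (∑ q ∈ u, 2 ^ Nat.pair q.1 q.2) + 1

/-- the value of `c` at `b` is at most `b` and is the code of `n` and of `c` on `[m, b)` -/
def lab (c : ℕ → ℕ) (n m b : ℕ) : Prop := c b ≤ b ∧ c b = code n (gr c m b)

/-- a point `p` (with `p < c p`) has a witness -/
def Wit (c : ℕ → ℕ) (p : ℕ) : Prop :=
  ∃ b, c p ≤ b ∧ lab c p (p + 1) b ∧ ∀ q, c p ≤ q → q < b → c q ≤ q

/-- the universal part of the definition of the set -/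
structure Bas (c : ℕ → ℕ) : Prop where
  S : ∀ n b, n < b → ¬ lab c n n b
  L : ∀ p q, p < q → q < c p → q < c q → c q < c p
  N : ∀ p b, p < b → b < c p → ¬ lab c p (p + 1) b

/-- the codes of the points of the set -/
structure InC (c : ℕ → ℕ) : Prop where
  bas : Bas c
  W : ∀ p, p < c p → Wit c p

theorem mem_gr {c : ℕ → ℕ} {m b : ℕ} {q : ℕ × ℕ} :
    q ∈ gr c m b ↔ (m ≤ q.1 ∧ q.1 < b) ∧ c q.1 ≠ 0 ∧ q.2 = c q.1 := by
  unfold gr
  rw [mem_image]
  constructor
  · rintro ⟨i, hi, rfl⟩
    rw [mem_filter, mem_Ico] at hi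
    exact ⟨hi.1, hi.2, rfl⟩
  · rintro ⟨h1, h2, h3⟩
    refine ⟨q.1, ?_, ?_⟩
    · rw [mem_filter, mem_Ico]
      exact ⟨h1, h2⟩
    · rw [← h3]

theorem gr_congr {c d : ℕ → ℕ} {m b : ℕ} (h : ∀ i, m ≤ i → i < b → c i = d i) :
    gr c m b = gr d m b := by
  ext q
  rw [mem_gr, mem_gr]
  constructor
  · rintro ⟨h1, h2, h3⟩
    rw [h q.1 h1.1 h1.2] at h2 h3
    exact ⟨h1, h2, h3⟩
  · rintro ⟨h1, h2, h3⟩
    rw [← h q.1 h1.1 h1.2] at h2 h3
    exact ⟨h1, h2, h3⟩

/-- zeros at the end do not matter -/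
theorem gr_stab {c : ℕ → ℕ} {m k b : ℕ} (hkb : k ≤ b) (h : ∀ i, k ≤ i → c i = 0) :
    gr c m b = gr c m k := by
  ext q
  rw [mem_gr, mem_gr]
  constructor
  · rintro ⟨h1, h2, h3⟩
    refine ⟨⟨h1.1, ?_⟩, h2, h3⟩
    by_contra hc
    exact h2 (h q.1 (not_lt.mp hc))
  · rintro ⟨h1, h2, h3⟩
    exact ⟨⟨h1.1, h1.2.trans_le hkb⟩, h2, h3⟩

/-- a zero at the beginning does not matter -/
theorem gr_succ {c : ℕ → ℕ} {m b : ℕ} (h : c m = 0) : gr c m b = gr c (m + 1) b := by
  ext q
  rw [mem_gr, mem_gr]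
  constructor
  · rintro ⟨h1, h2, h3⟩
    refine ⟨⟨?_, h1.2⟩, h2, h3⟩
    rcases Nat.lt_or_ge m q.1 with h4 | h4
    · exact h4
    · exfalso
      have h5 : q.1 = m := le_antisymm h4 h1.1
      rw [h5] at h2
      exact h2 h
  · rintro ⟨h1, h2, h3⟩
    exact ⟨⟨by omega, h1.2⟩, h2, h3⟩

theorem code_pos (m : ℕ) (u : Finset (ℕ × ℕ)) : 0 < code m u := Nat.succ_pos _

theorem lt_code {m : ℕ} {u : Finset (ℕ × ℕ)} {q : ℕ × ℕ} (h : q ∈ u) : q.2 < code m u := by
  unfold code
  have h1 : 2 ^ Nat.pair q.1 q.2 ≤ ∑ q ∈ u, 2 ^ Nat.pair q.1 q.2 :=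
    single_le_sum (f := fun q : ℕ × ℕ => 2 ^ Nat.pair q.1 q.2) (fun _ _ => Nat.zero_le _) h
  have h2 : q.2 ≤ Nat.pair q.1 q.2 := Nat.right_le_pair _ _
  have h3 : Nat.pair q.1 q.2 < 2 ^ Nat.pair q.1 q.2 := Nat.lt_two_pow_self
  have h4 := Nat.right_le_pair m (∑ q ∈ u, 2 ^ Nat.pair q.1 q.2)
  omega

theorem code_inj {m n : ℕ} {u v : Finset (ℕ × ℕ)} (h : code m u = code n v) : m = n ∧ u = v := by
  unfold code at h
  have h1 := Nat.pair_eq_pair.mp (Nat.succ_injective h)
  refine ⟨h1.1, ?_⟩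
  have hinj : Function.Injective fun q : ℕ × ℕ => Nat.pair q.1 q.2 := by
    intro p q hpq
    have h2 := Nat.pair_eq_pair.mp hpq
    exact Prod.ext h2.1 h2.2
  have key : ∀ w : Finset (ℕ × ℕ), ∑ q ∈ w, 2 ^ Nat.pair q.1 q.2 =
      ∑ i ∈ w.image fun q : ℕ × ℕ => Nat.pair q.1 q.2, 2 ^ i := by
    intro w
    rw [sum_image]
    intro a _ b _ hab
    exact hinj hab
  have h3 := h1.2
  rw [key u, key v] at h3
  have h4 := geomSum_injective (n := 2) le_rfl h3
  exact image_injective hinj h4

theorem lab_congr {c d : ℕ → ℕ} {n m b : ℕ} (h : ∀ i, m ≤ i → i ≤ b → c i = d i) (hmb : m ≤ b)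
    (hl : lab c n m b) : lab d n m b := by
  unfold lab at hl ⊢
  rw [← h b hmb le_rfl, ← gr_congr (fun i h1 h2 => h i h1 h2.le)]
  exact hl

theorem lab_pos {c : ℕ → ℕ} {n m b : ℕ} (hl : lab c n m b) : c b ≠ 0 := by
  rw [hl.2]
  exact (code_pos _ _).ne'

/-! ### Finite members -/

/-- all is below `k` -/
def Bd (c : ℕ → ℕ) (k : ℕ) : Prop := (∀ i, k ≤ i → c i = 0) ∧ ∀ i, c i ≤ k

/-- finite member of the set -/
def Cond (c : ℕ → ℕ) (k : ℕ) : Prop := InC c ∧ Bd c k

/-- finite member up to the missing witness of `e` -/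
def Semi (c : ℕ → ℕ) (e k : ℕ) : Prop :=
  Bas c ∧ (∀ p, p ≠ e → p < c p → Wit c p) ∧ Bd c k ∧ (e < c e → ∀ i, c e ≤ i → c i = 0)

theorem Bd.mono {c : ℕ → ℕ} {k l : ℕ} (h : Bd c k) (hkl : k ≤ l) : Bd c l :=
  ⟨fun i hi => h.1 i (hkl.trans hi), fun i => (h.2 i).trans hkl⟩

theorem cond_zero : Cond (fun _ => 0) 0 := by
  refine ⟨⟨⟨?_, ?_, ?_⟩, ?_⟩, ?_, ?_⟩
  · intro n b _ h
    exact lab_pos h rfl
  · intro p q _ h
    exact absurd h (Nat.not_lt_zero _)
  · intro p b _ h
    exact absurd h (Nat.not_lt_zero _)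
  · intro p h
    exact absurd h (Nat.not_lt_zero _)
  · intro i _
    rfl
  · intro i
    exact le_rfl

theorem Cond.semi {c : ℕ → ℕ} {k : ℕ} (h : Cond c k) : Semi c k k := by
  refine ⟨h.1.bas, fun p _ hp => h.1.W p hp, h.2, ?_⟩
  intro hk
  rw [h.2.1 k le_rfl] at hk
  exact absurd hk (Nat.not_lt_zero _)

/-- the missing witness is added -/
theorem compl {c : ℕ → ℕ} {e k : ℕ} (h : Semi c e k) {β : ℕ} (hβ : k ≤ β) :
    ∃ (c' : ℕ → ℕ) (k' : ℕ), Cond c' k' ∧ β < k' ∧ ∀ i, i ≤ β → c' i = c i := by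
  obtain ⟨hB, hW, hbd, hlast⟩ := h
  by_cases he : e < c e
  · set v := code e (gr c (e + 1) k) with hv
    set b := β + 1 + v with hb
    have hcek : c e ≤ k := hbd.2 e
    have hkb : k ≤ b := by omega
    have hsame : ∀ i, i ≠ b → Function.update c b v i = c i := fun i hi =>
      Function.update_of_ne hi _ _
    have hat : Function.update c b v b = v := Function.update_self _ _ _
    have hgr : ∀ m j, j ≤ b → gr (Function.update c b v) m j = gr c m j := by
      intro m j hj
      exact gr_congr fun i _ h2 => hsame i (by omega)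
    refine ⟨Function.update c b v, b + 1, ⟨⟨⟨?_, ?_, ?_⟩, ?_⟩, ?_, ?_⟩, by omega,
      fun i hi => hsame i (by omega)⟩
    · intro n j hnj hl
      rcases lt_trichotomy j b with h1 | h1 | h1
      · refine hB.S n j hnj (lab_congr (fun i _ h3 => ?_) hnj.le hl)
        exact hsame i (by omega)
      · subst h1
        have h2 := hl.2
        rw [hat, hgr n b le_rfl] at h2
        obtain ⟨h3, h4⟩ := code_inj h2
        subst h3
        have hce : c e ≠ 0 := by omega
        have h5 : (e, c e) ∈ gr c e b := by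
          rw [mem_gr]
          exact ⟨⟨le_rfl, hnj⟩, hce, rfl⟩
        rw [← h4, mem_gr] at h5
        have h6 : e + 1 ≤ e := h5.1.1
        omega
      · apply lab_pos hl
        rw [hsame j (by omega)]
        exact hbd.1 j (by omega)
    · intro p q hpq h1 h2
      have hp : p ≠ b := by
        intro hp
        rw [hp, hat] at h1
        omega
      have hq : q ≠ b := by
        intro hq
        rw [hq, hat] at h2
        omega
      rw [hsame p hp] at h1 ⊢
      rw [hsame q hq] at h2 ⊢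
      exact hB.L p q hpq h1 h2
    · intro p j hpj h1 hl
      have hp : p ≠ b := by
        intro hp
        rw [hp, hat] at h1
        omega
      rw [hsame p hp] at h1
      have h2 := hbd.2 p
      refine hB.N p j hpj h1 (lab_congr (fun i _ h3 => ?_) hpj hl)
      exact hsame i (by omega)
    · intro p hp
      have hpb : p ≠ b := by
        intro hp'
        rw [hp', hat] at hp
        omega
      rw [hsame p hpb] at hp
      by_cases hpe : p = e
      · subst hpe
        refine ⟨b, ?_, ⟨?_, ?_⟩, ?_⟩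
        · rw [hsame p hpb]
          omega
        · rw [hat]
          omega
        · rw [hat, hgr _ b le_rfl, gr_stab hkb hbd.1]
        · intro q h1 h2
          rw [hsame p hpb] at h1
          rw [hsame q (by omega), hlast hp q h1]
          exact Nat.zero_le _
      · obtain ⟨j, h1, h2, h3⟩ := hW p hpe hp
        have hjk : j < k := by
          by_contra hc
          exact lab_pos h2 (hbd.1 j (not_lt.mp hc))
        refine ⟨j, ?_, ?_, ?_⟩
        · rw [hsame p hpb]
          exact h1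
        · refine lab_congr (fun i _ h5 => (hsame i (by omega)).symm) ?_ h2
          omega
        · intro q h4 h5
          rw [hsame p hpb] at h4
          rw [hsame q (by omega)]
          exact h3 q h4 h5
    · intro i hi
      rw [hsame i (by omega)]
      exact hbd.1 i (by omega)
    · intro i
      by_cases hi : i = b
      · rw [hi, hat]
        omega
      · rw [hsame i hi]
        have := hbd.2 i
        omega
  · refine ⟨c, β + 1, ⟨⟨hB, ?_⟩, hbd.mono (by omega)⟩, by omega, fun i _ => rfl⟩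
    intro p hp
    by_cases hpe : p = e
    · subst hpe
      exact absurd hp he
    · exact hW p hpe hp

/-- the new element `k` of `x` with large value, copied extension of `y` -/
def glue (x y : ℕ → ℕ) (k v : ℕ) : ℕ → ℕ := fun i => if i < k then x i else if i = k then v else y i

theorem glue_lt {x y : ℕ → ℕ} {k v i : ℕ} (h : i < k) : glue x y k v i = x i := if_pos h

theorem glue_eq {x y : ℕ → ℕ} {k v : ℕ} : glue x y k v k = v := by
  unfold glue
  rw [if_neg (lt_irrefl k), if_pos rfl]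

theorem glue_gt {x y : ℕ → ℕ} {k v i : ℕ} (h : k < i) : glue x y k v i = y i := by
  unfold glue
  rw [if_neg (by omega), if_neg (by omega)]

theorem phase {x y : ℕ → ℕ} {k l v : ℕ} (hx : Cond x k) (hy : Cond y l) (hkl : k < l)
    (hyk : y k = 0) (hv : l < v) : Semi (glue x y k v) k v := by
  obtain ⟨hxC, hxb⟩ := hx
  obtain ⟨hyC, hyb⟩ := hy
  refine ⟨⟨?_, ?_, ?_⟩, ?_, ⟨?_, ?_⟩, ?_⟩
  · intro n b hnb hl
    rcases lt_trichotomy b k with h1 | h1 | h1
    · exact hxC.bas.S n b hnb (lab_congr (fun i _ h3 => glue_lt (by omega)) hnb.le hl)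
    · subst h1
      have h2 := hl.1
      rw [glue_eq] at h2
      omega
    · rcases Nat.lt_or_ge k n with h2 | h2
      · exact hyC.bas.S n b hnb (lab_congr (fun i h4 _ => glue_gt (by omega)) hnb.le hl)
      · have h3 : (k, v) ∈ gr (glue x y k v) n b := by
          rw [mem_gr]
          refine ⟨⟨h2, h1⟩, ?_, ?_⟩
          · show glue x y k v k ≠ 0
            rw [glue_eq]
            omega
          · show v = glue x y k v k
            rw [glue_eq]
        have h4 : v < code n (gr (glue x y k v) n b) := lt_code h3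
        rw [← hl.2, glue_gt h1] at h4
        have h5 := hyb.2 b
        omega
  · intro p q hpq h1 h2
    rcases lt_trichotomy p k with h3 | h3 | h3
    · rw [glue_lt h3] at h1 ⊢
      have h4 := hxb.2 p
      have h5 : q < k := by omega
      rw [glue_lt h5] at h2 ⊢
      exact hxC.bas.L p q hpq h1 h2
    · subst h3
      rw [glue_eq, glue_gt hpq]
      have h5 := hyb.2 q
      omega
    · have h4 : k < q := by omega
      rw [glue_gt h3] at h1 ⊢
      rw [glue_gt h4] at h2 ⊢
      exact hyC.bas.L p q hpq h1 h2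
  · intro p b hpb h1 hl
    rcases lt_trichotomy p k with h3 | h3 | h3
    · rw [glue_lt h3] at h1
      have h4 := hxb.2 p
      exact hxC.bas.N p b hpb h1 (lab_congr (fun i _ h3 => glue_lt (by omega)) hpb hl)
    · subst h3
      have h5 : lab y p (p + 1) b := lab_congr (fun i h4 _ => glue_gt (by omega)) hpb hl
      refine hyC.bas.S p b hpb ⟨h5.1, ?_⟩
      rw [gr_succ hyk]
      exact h5.2
    · rw [glue_gt h3] at h1
      exact hyC.bas.N p b hpb h1 (lab_congr (fun i h4 _ => glue_gt (by omega)) hpb hl)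
  · intro p hpk hp
    rcases lt_or_gt_of_ne hpk with h3 | h3
    · rw [glue_lt h3] at hp
      obtain ⟨b, h4, h5, h6⟩ := hxC.W p hp
      have hbk : b < k := by
        by_contra hc
        exact lab_pos h5 (hxb.1 b (not_lt.mp hc))
      refine ⟨b, ?_, ?_, ?_⟩
      · rw [glue_lt h3]
        exact h4
      · refine lab_congr (fun i _ h5 => (glue_lt (by omega)).symm) ?_ h5
        omega
      · intro q h7 h8
        rw [glue_lt h3] at h7
        rw [glue_lt (by omega)]
        exact h6 q h7 h8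
    · have h3' : k < p := h3
      rw [glue_gt h3'] at hp
      obtain ⟨b, h4, h5, h6⟩ := hyC.W p hp
      refine ⟨b, ?_, ?_, ?_⟩
      · rw [glue_gt h3']
        exact h4
      · refine lab_congr (fun i h7 _ => (glue_gt (by omega)).symm) ?_ h5
        omega
      · intro q h7 h8
        rw [glue_gt h3'] at h7
        rw [glue_gt (by omega)]
        exact h6 q h7 h8
  · intro i hi
    rw [glue_gt (by omega)]
    exact hyb.1 i (by omega)
  · intro i
    rcases lt_trichotomy i k with h3 | h3 | h3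
    · rw [glue_lt h3]
      have := hxb.2 i
      omega
    · subst h3
      rw [glue_eq]
    · rw [glue_gt h3]
      have := hyb.2 i
      omega
  · intro _ i hi
    rw [glue_eq] at hi
    rw [glue_gt (by omega)]
    exact hyb.1 i (by omega)

/-- limits of finite members -/
theorem lim {c : ℕ → ℕ} (h : ∀ n, ∃ s k, n ≤ k ∧ Cond s k ∧ ∀ i, i < k → c i = s i) : InC c := by
  refine ⟨⟨?_, ?_, ?_⟩, ?_⟩
  · intro n b hnb hl
    obtain ⟨s, k, hk, hs, hcs⟩ := h (b + 1)
    exact hs.1.bas.S n b hnb (lab_congr (fun i _ h3 => hcs i (by omega)) hnb.le hl)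
  · intro p q hpq h1 h2
    obtain ⟨s, k, hk, hs, hcs⟩ := h (q + 1)
    rw [hcs p (by omega)] at h1 ⊢
    rw [hcs q (by omega)] at h2 ⊢
    exact hs.1.bas.L p q hpq h1 h2
  · intro p b hpb h1 hl
    obtain ⟨s, k, hk, hs, hcs⟩ := h (b + 1)
    rw [hcs p (by omega)] at h1
    exact hs.1.bas.N p b hpb h1 (lab_congr (fun i _ h3 => hcs i (by omega)) hpb hl)
  · intro p hp
    obtain ⟨s, k, hk, hs, hcs⟩ := h (p + 1)
    rw [hcs p (by omega)] at hp
    obtain ⟨b, h4, h5, h6⟩ := hs.1.W p hp
    have hbk : b < k := by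
      by_contra hc
      exact lab_pos h5 (hs.2.1 b (not_lt.mp hc))
    refine ⟨b, ?_, ?_, ?_⟩
    · rw [hcs p (by omega)]
      exact h4
    · refine lab_congr (fun i _ h5 => (hcs i (by omega)).symm) ?_ h5
      omega
    · intro q h7 h8
      rw [hcs p (by omega)] at h7
      rw [hcs q (by omega)]
      exact h6 q h7 h8

end Pool.Agent.H96.BN
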