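import Mathlib

/-!
# Baire non-normality of the box power of `ω + 1` (`MP_d75401_gt`): definitions of the statement

The points are all functions from `ℕ` to `ω + 1`, which is `ℕ∞` with its order topology.
-/

set_option autoImplicit false

open Topology Set

namespace Pool.Agent.H96.BN

/-- the box topology on the set of all functions from `ℕ` to `ω + 1` -/
@[reducible] def boxTop : TopologicalSpace (ℕ → ℕ∞) :=
  TopologicalSpace.generateFrom {S | ∃ U : ℕ → Set ℕ∞, (∀ n, IsOpen (U n)) ∧ S = Set.univ.pi U}

/-- the basic box neighbourhood `N(z, g)`: all `w` with `w n = z n` if `z n` is finite and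
`w n > g n` if `z n = ω` -/
def nbd (z : ℕ → ℕ∞) (g : ℕ → ℕ) : Set (ℕ → ℕ∞) :=
  {w | ∀ n, (z n ≠ ⊤ → w n = z n) ∧ (z n = ⊤ → (g n : ℕ∞) < w n)}

/-- the product of the discrete topologies -/
@[reducible] def discTop : TopologicalSpace (ℕ → ℕ∞) := @Pi.topologicalSpace ℕ (fun _ => ℕ∞) (fun _ => ⊥)

/-- the assignment `F` is Baire measurable on `S`: the sets `{x ∈ S | F x n = v}` have the
property of Baire in `S`, with the topology induced by `discTop` -/
def BaireOn (S : Set (ℕ → ℕ∞)) (F : (ℕ → ℕ∞) → ℕ → ℕ) : Prop :=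
  ∀ n v, @BaireMeasurableSet S (discTop.induced Subtype.val) {x : S | F x n = v}

/-- the set `R` is comeager in `S`, with the topology induced by `discTop` -/
def ComeagerIn (S R : Set (ℕ → ℕ∞)) : Prop :=
  {x : S | x.1 ∈ R} ∈ @residual S (discTop.induced Subtype.val)

end Pool.Agent.H96.BN
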