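import Pool.Agent.H96.BN.Top

/-!
# Borel non-normality of the box power of `ω + 1` (`MP_d75401_gt`): measurability
-/

set_option autoImplicit false

open Topology Set

namespace Pool.Agent.H96.BN

theorem measurable_cd : Measurable cd :=
  measurable_pi_iff.mpr fun n => (Measurable.of_discrete (f := ENat.toNat)).comp (measurable_pi_apply n)

theorem fin_meas {P : (ℕ → ℕ) → Prop} (N : ℕ)
    (h : ∀ c d : ℕ → ℕ, (∀ i, i < N → c i = d i) → P c → P d) : MeasurableSet {c | P c} := by
  classical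
  have h1 : {c | P c} = (fun (c : ℕ → ℕ) (i : Fin N) => c i) ⁻¹'
      {f | P fun i => if hi : i < N then f ⟨i, hi⟩ else 0} := by
    ext c
    constructor
    · intro hc
      exact h c _ (fun i hi => by rw [dif_pos hi]) hc
    · intro hc
      exact h _ c (fun i hi => by rw [dif_pos hi]) hc
  rw [h1]
  refine MeasurableSet.preimage (Set.to_countable _).measurableSet ?_
  exact measurable_pi_iff.mpr fun i => measurable_pi_apply _

theorem lab_of {c d : ℕ → ℕ} {n m b N : ℕ} (h : ∀ i, i < N → c i = d i) (hb : b < N)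
    (hl : lab c n m b) : lab d n m b := by
  unfold lab at hl ⊢
  rw [← h b hb, ← gr_congr (fun i _ h2 => h i (by omega))]
  exact hl

theorem meas_InC : MeasurableSet {c : ℕ → ℕ | InC c} := by
  have e : {c : ℕ → ℕ | InC c} = (⋂ n, ⋂ b, {c : ℕ → ℕ | n < b → ¬ lab c n n b}) ∩
      ((⋂ p, ⋂ q, {c : ℕ → ℕ | p < q → q < c p → q < c q → c q < c p}) ∩
      ((⋂ p, ⋂ b, {c : ℕ → ℕ | p < b → b < c p → ¬ lab c p (p + 1) b}) ∩
      (⋂ p, ⋃ b, {c : ℕ → ℕ | p < c p → (c p ≤ b ∧ lab c p (p + 1) b ∧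
        ∀ q, c p ≤ q → q < b → c q ≤ q)}))) := by
    ext c
    simp only [mem_inter_iff, mem_iInter, mem_iUnion, mem_ofPred_eq]
    constructor
    · intro h
      refine ⟨h.bas.S, h.bas.L, h.bas.N, fun p => ?_⟩
      by_cases hp : p < c p
      · obtain ⟨b, hb⟩ := h.W p hp
        exact ⟨b, fun _ => hb⟩
      · exact ⟨0, fun h => absurd h hp⟩
    · rintro ⟨h1, h2, h3, h4⟩
      refine ⟨⟨h1, h2, h3⟩, fun p hp => ?_⟩
      obtain ⟨b, hb⟩ := h4 p
      exact ⟨b, hb hp⟩
  rw [e]
  refine ((MeasurableSet.iInter fun n => MeasurableSet.iInter fun b => ?_).inter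
    ((MeasurableSet.iInter fun p => MeasurableSet.iInter fun q => ?_).inter
    ((MeasurableSet.iInter fun p => MeasurableSet.iInter fun b => ?_).inter
    (MeasurableSet.iInter fun p => MeasurableSet.iUnion fun b => ?_))))
  · refine fin_meas (b + 1) fun c d h hc hnb hl => hc hnb ?_
    exact lab_of (fun i hi => (h i hi).symm) (Nat.lt_succ_self b) hl
  · refine fin_meas (p + q + 1) fun c d h hc h1 h2 h3 => ?_
    have hp : c p = d p := h p (by omega)
    have hq : c q = d q := h q (by omega)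
    rw [← hp] at h2 ⊢
    rw [← hq] at h3 ⊢
    exact hc h1 h2 h3
  · refine fin_meas (p + b + 1) fun c d h hc h1 h2 h3 => ?_
    have hp : c p = d p := h p (by omega)
    rw [← hp] at h2
    exact hc h1 h2 (lab_of (fun i hi => (h i hi).symm) (by omega) h3)
  · refine fin_meas (p + b + 1) fun c d h hc h1 => ?_
    have hp : c p = d p := h p (by omega)
    rw [← hp] at h1 ⊢
    obtain ⟨h2, h3, h4⟩ := hc h1
    refine ⟨h2, lab_of h (by omega) h3, fun q h5 h6 => ?_⟩
    rw [← h q (by omega)]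
    exact h4 q h5 h6

theorem meas_CC : MeasurableSet CC := by
  have e : CC = cd ⁻¹' {c | InC c} ∩
      ⋂ n, (fun z : ℕ → ℕ∞ => z n) ⁻¹' {a | (if a.toNat = 0 then ⊤ else (a.toNat : ℕ∞)) = a} := by
    ext z
    simp only [mem_inter_iff, mem_iInter, mem_preimage, mem_ofPred_eq]
    constructor
    · intro h
      obtain ⟨h1, h2⟩ := cd_mem h
      exact ⟨h1, fun n => congrFun h2 n⟩
    · rintro ⟨h1, h2⟩
      exact ⟨cd z, h1, funext h2⟩
  rw [e]
  refine (measurable_cd meas_InC).inter (MeasurableSet.iInter fun n => ?_)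
  exact measurable_pi_apply n (MeasurableSet.of_discrete)

theorem measurable_gf : Measurable gf := by
  rw [measurable_pi_iff]
  intro n
  have hA : ∀ b, MeasurableSet {c : ℕ → ℕ | n < b ∧ lab c n n b} := by
    intro b
    refine fin_meas (b + 1) fun c d h hc => ⟨hc.1, lab_of h (Nat.lt_succ_self b) hc.2⟩
  have h1 : Measurable fun c : ℕ → ℕ => sInf {b | n < b ∧ lab c n n b} := by
    refine measurable_to_countable' fun v => ?_
    have e : (fun c : ℕ → ℕ => sInf {b | n < b ∧ lab c n n b}) ⁻¹' {v} =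
        ({c : ℕ → ℕ | n < v ∧ lab c n n v} ∩
          ⋂ b, {c : ℕ → ℕ | b < v → ¬ (n < b ∧ lab c n n b)}) ∪
        ({c : ℕ → ℕ | v = 0} ∩ ⋂ b, {c : ℕ → ℕ | ¬ (n < b ∧ lab c n n b)}) := by
      ext c
      simp only [mem_preimage, mem_singleton_iff, mem_union, mem_inter_iff, mem_iInter,
        mem_ofPred_eq]
      constructor
      · intro h
        by_cases hne : ({b | n < b ∧ lab c n n b} : Set ℕ).Nonempty
        · left
          have h2 := Nat.sInf_mem hne
          rw [h] at h2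
          refine ⟨h2, fun b hb h3 => ?_⟩
          rw [← h] at hb
          exact Nat.notMem_of_lt_sInf hb h3
        · right
          rw [Set.not_nonempty_iff_eq_empty] at hne
          rw [hne, Nat.sInf_empty] at h
          refine ⟨h.symm, fun b h3 => ?_⟩
          have h4 : b ∈ ({b | n < b ∧ lab c n n b} : Set ℕ) := h3
          rw [hne] at h4
          exact h4
      · rintro (⟨h2, h3⟩ | ⟨h2, h3⟩)
        · apply le_antisymm
          · exact Nat.sInf_le h2
          · by_contra hc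
            have h4 := Nat.sInf_mem (s := {b | n < b ∧ lab c n n b}) ⟨v, h2⟩
            exact h3 _ (not_le.mp hc) h4
        · have h4 : ({b | n < b ∧ lab c n n b} : Set ℕ) = ∅ := by
            rw [Set.eq_empty_iff_forall_notMem]
            exact h3
          rw [h4, Nat.sInf_empty, h2]
    rw [e]
    refine ((hA v).inter (MeasurableSet.iInter fun b => ?_)).union
      ((MeasurableSet.const _).inter (MeasurableSet.iInter fun b => ?_))
    · by_cases hb : b < v
      · have e2 : {c : ℕ → ℕ | b < v → ¬ (n < b ∧ lab c n n b)} =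
            {c : ℕ → ℕ | n < b ∧ lab c n n b}ᶜ := by
          ext c
          simp [hb]
        rw [e2]
        exact (hA b).compl
      · have e2 : {c : ℕ → ℕ | b < v → ¬ (n < b ∧ lab c n n b)} = univ := by
          ext c
          simp [hb]
        rw [e2]
        exact MeasurableSet.univ
    · exact (hA b).compl
  exact measurable_const.max h1

/-- the first closed set -/
def HH : Set (ℕ → ℕ∞) := {z | z ∈ CC ∧ z 0 ≠ ⊤}

/-- the second closed set -/
def KK : Set (ℕ → ℕ∞) := {z | z ∈ CC ∧ z 0 = ⊤}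

theorem meas_HH : MeasurableSet HH := by
  have h1 : MeasurableSet ((fun z : ℕ → ℕ∞ => z 0) ⁻¹' {a | a ≠ ⊤}) :=
    measurable_pi_apply 0 MeasurableSet.of_discrete
  exact meas_CC.inter h1

theorem meas_KK : MeasurableSet KK := by
  have h1 : MeasurableSet ((fun z : ℕ → ℕ∞ => z 0) ⁻¹' {a | a = ⊤}) :=
    measurable_pi_apply 0 MeasurableSet.of_discrete
  exact meas_CC.inter h1

theorem union_eq : HH ∪ KK = CC := by
  ext z
  constructor
  · rintro (h | h)
    · exact h.1
    · exact h.1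
  · intro h
    by_cases h0 : z 0 = ⊤
    · exact Or.inr ⟨h, h0⟩
    · exact Or.inl ⟨h, h0⟩

/-- all together -/
theorem main : ∃ H K : Set (ℕ → ℕ∞),
    IsClosed[boxTop] H ∧ IsClosed[boxTop] K ∧ Disjoint H K ∧ MeasurableSet H ∧ MeasurableSet K ∧
    (∃ g : (ℕ → ℕ∞) → ℕ → ℕ, Measurable g ∧ ∀ z, nbd z (g z) ∩ (H ∪ K) ⊆ {z}) ∧
    ∀ F : (ℕ → ℕ∞) → ℕ → ℕ, BaireOn (H ∪ K) F → ∀ R, ComeagerIn (H ∪ K) R →
      ∃ x ∈ H ∩ R, ∃ y ∈ K ∩ R, ¬ Disjoint (nbd x (F x)) (nbd y (F y)) := by
  refine ⟨HH, KK, isClosed_of_subset fun z h => h.1, isClosed_of_subset fun z h => h.1, ?_,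
    meas_HH, meas_KK, ⟨fun z => gf (cd z), measurable_gf.comp measurable_cd, ?_⟩, ?_⟩
  · rw [Set.disjoint_left]
    intro z h1 h2
    exact h1.2 h2.2
  · rintro z w ⟨h1, h2⟩
    rw [union_eq] at h2
    exact nbd_CC h2 h1
  · intro F hF R hR
    rw [union_eq] at hF hR
    obtain ⟨x, hx, y, hy, hx0, hy0, h⟩ := not_sep hF hR
    exact ⟨x, ⟨⟨hx.1, hx0⟩, hx.2⟩, y, ⟨⟨hy.1, hy0⟩, hy.2⟩, h⟩

end Pool.Agent.H96.BN
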