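import Pool.Agent.H96.BN.Comb

/-!
# Borel non-normality of the box power of `ω + 1` (`MP_d75401_gt`): truncation, closedness and the
construction of the pair
-/

set_option autoImplicit false

namespace Pool.Agent.H96.BN

open Finset

/-! ### Truncation -/

/-- `c` below `l` -/
def trunc (c : ℕ → ℕ) (l : ℕ) : ℕ → ℕ := fun i => if i < l then c i else 0

theorem trunc_lt {c : ℕ → ℕ} {l i : ℕ} (h : i < l) : trunc c l i = c i := if_pos h

theorem trunc_ge {c : ℕ → ℕ} {l i : ℕ} (h : l ≤ i) : trunc c l i = 0 := if_neg (not_lt.mpr h)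

theorem trunc_cond {c : ℕ → ℕ} {l : ℕ} (h : InC c) (h1 : ∀ i, i < l → c i ≤ l)
    (h2 : ∀ p, p < l → p < c p → ∃ b, b < l ∧ c p ≤ b ∧ lab c p (p + 1) b ∧
      ∀ q, c p ≤ q → q < b → c q ≤ q) : Cond (trunc c l) l := by
  have hne : ∀ i, trunc c l i ≠ 0 → i < l := by
    intro i hi
    by_contra hc
    exact hi (trunc_ge (not_lt.mp hc))
  refine ⟨⟨⟨?_, ?_, ?_⟩, ?_⟩, ?_, ?_⟩
  · intro n b hnb hl
    have hb := hne b (lab_pos hl)
    exact h.bas.S n b hnb (lab_congr (fun i _ h3 => trunc_lt (by omega)) hnb.le hl)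
  · intro p q hpq h3 h4
    have hp := hne p (by omega)
    have hq := hne q (by omega)
    rw [trunc_lt hp] at h3 ⊢
    rw [trunc_lt hq] at h4 ⊢
    exact h.bas.L p q hpq h3 h4
  · intro p b hpb h3 hl
    have hb := hne b (lab_pos hl)
    rw [trunc_lt (by omega)] at h3
    exact h.bas.N p b hpb h3 (lab_congr (fun i _ h4 => trunc_lt (by omega)) hpb hl)
  · intro p hp
    have hpl := hne p (by omega)
    rw [trunc_lt hpl] at hp
    obtain ⟨b, h3, h4, h5, h6⟩ := h2 p hpl hp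
    refine ⟨b, ?_, ?_, ?_⟩
    · rw [trunc_lt hpl]
      exact h4
    · refine lab_congr (fun i _ h7 => (trunc_lt (by omega)).symm) ?_ h5
      omega
    · intro q h7 h8
      rw [trunc_lt hpl] at h7
      rw [trunc_lt (by omega)]
      exact h6 q h7 h8
  · intro i hi
    exact trunc_ge hi
  · intro i
    by_cases hi : i < l
    · rw [trunc_lt hi]
      exact h1 i hi
    · rw [trunc_ge (not_lt.mp hi)]
      exact Nat.zero_le _

/-- every member has arbitrarily long finite members as initial segments -/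
theorem exists_cond {c : ℕ → ℕ} (h : InC c) (N : ℕ) :
    ∃ t l, Cond t l ∧ N ≤ l ∧ ∀ i, i < l → t i = c i := by
  obtain ⟨M, hNM, hM⟩ : ∃ M, N ≤ M ∧ ∀ i, i < N → c i ≤ M := by
    refine ⟨N + ∑ i ∈ range N, c i, by omega, ?_⟩
    intro i hi
    have h1 : c i ≤ ∑ i ∈ range N, c i :=
      single_le_sum (f := c) (fun _ _ => Nat.zero_le _) (mem_range.mpr hi)
    omega
  by_cases hA : ∃ q, M ≤ q ∧ q < c q
  · obtain ⟨q, hMq, hq⟩ := hA
    classical
    have hex : ∃ p, p ≤ q ∧ q < c p := ⟨q, le_rfl, hq⟩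
    set t := Nat.find hex with ht
    obtain ⟨ht1, ht2⟩ : t ≤ q ∧ q < c t := Nat.find_spec hex
    have hmin : ∀ p, p < t → ¬ (p ≤ q ∧ q < c p) := fun p hp => Nat.find_min hex hp
    have hNt : N ≤ t := by
      by_contra hc
      have h1 := hM t (not_le.mp hc)
      omega
    have hle : ∀ p, p < t → c p ≤ t := by
      intro p hp
      by_contra hc
      have h1 := h.bas.L p t hp (not_le.mp hc) (by omega)
      exact hmin p hp ⟨by omega, by omega⟩
    refine ⟨trunc c t, t, trunc_cond h hle ?_, hNt, fun i hi => trunc_lt hi⟩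
    intro p hpt hp
    obtain ⟨b, h1, h2, h3⟩ := h.W p hp
    refine ⟨b, ?_, h1, h2, h3⟩
    by_contra hc
    rcases Nat.lt_or_ge t b with h4 | h4
    · have h5 := h3 t (hle p hpt) h4
      omega
    · have h5 : b = t := by omega
      have h6 := h2.1
      rw [h5] at h6
      omega
  · have hlow : ∀ q, M ≤ q → c q ≤ q := by
      intro q hq
      by_contra hc
      exact hA ⟨q, hq, not_le.mp hc⟩
    have hex : ∀ p, ∃ b, p < c p → c p ≤ b ∧ lab c p (p + 1) b ∧
        ∀ q, c p ≤ q → q < b → c q ≤ q := by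
      intro p
      by_cases hp : p < c p
      · obtain ⟨b, hb⟩ := h.W p hp
        exact ⟨b, fun _ => hb⟩
      · exact ⟨0, fun h => absurd h hp⟩
    choose f hf using hex
    set l := M + ∑ i ∈ range M, (c i + f i + 1) with hl
    have hsum : ∀ i, i < M → c i + f i + 1 ≤ l := by
      intro i hi
      have h1 : c i + f i + 1 ≤ ∑ i ∈ range M, (c i + f i + 1) :=
        single_le_sum (f := fun i => c i + f i + 1) (fun _ _ => Nat.zero_le _) (mem_range.mpr hi)
      omega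
    refine ⟨trunc c l, l, trunc_cond h ?_ ?_, by omega, fun i hi => trunc_lt hi⟩
    · intro i hi
      rcases Nat.lt_or_ge i M with h1 | h1
      · have := hsum i h1
        omega
      · have := hlow i h1
        omega
    · intro p hp hpc
      rcases Nat.lt_or_ge p M with h1 | h1
      · have h2 := hsum p h1
        exact ⟨f p, by omega, hf p hpc⟩
      · have := hlow p h1
        omega

/-! ### Closedness -/

/-- the function that isolates -/
noncomputable def gf (d : ℕ → ℕ) (n : ℕ) : ℕ := max n (sInf {b | n < b ∧ lab d n n b})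

theorem close {c d : ℕ → ℕ} (h : InC c) (hz : ∀ n, d n ≠ 0 → c n = d n)
    (hg : ∀ n, d n = 0 → c n ≠ 0 → gf d n < c n) : c = d := by
  classical
  by_contra hne
  have hA : ∃ v m, d m = 0 ∧ c m ≠ 0 ∧ c m = v := by
    by_contra hc
    apply hne
    funext n
    by_cases h1 : d n = 0
    · by_contra h2
      exact hc ⟨c n, n, h1, fun h3 => h2 (h3.trans h1.symm), rfl⟩
    · exact hz n h1
  obtain ⟨m, hm1, hm2, hm3⟩ := Nat.find_spec hA
  have hmin : ∀ n, d n = 0 → c n ≠ 0 → c m ≤ c n := by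
    intro n h1 h2
    by_contra hc
    exact Nat.find_min hA (m := c n) (by omega) ⟨n, h1, h2, rfl⟩
  have hlow : ∀ n, d n = 0 → c n ≠ 0 → n < c n := by
    intro n h1 h2
    exact lt_of_le_of_lt (le_max_left _ _) (hg n h1 h2)
  have hout : ∀ n, ¬ (d n = 0 ∧ c n ≠ 0) → c n = d n := by
    intro n h1
    by_cases h2 : d n = 0
    · rw [h2]
      by_contra h3
      exact h1 ⟨h2, h3⟩
    · exact hz n h2
  have hmh := hlow m hm1 hm2
  obtain ⟨b, hb1, hb2, hb3⟩ := h.W m hmh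
  have hclear : ∀ i, m < i → i ≤ b → c i = d i := by
    intro i h1 h2
    apply hout
    rintro ⟨h3, h4⟩
    have h5 := hlow i h3 h4
    have h6 := hmin i h3 h4
    rcases Nat.lt_or_ge i (c m) with h7 | h7
    · have h8 := h.bas.L m i h1 h7 h5
      omega
    · rcases Nat.lt_or_ge i b with h8 | h8
      · have h9 := hb3 i h7 h8
        omega
      · have h9 : i = b := le_antisymm h2 h8
        have h10 := hb2.1
        rw [h9] at h5
        omega
  have hmb : m < b := by omega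
  have hlabd : lab d m m b := by
    have h1 : lab d m (m + 1) b := lab_congr (fun i h2 h3 => hclear i (by omega) h3) hmb hb2
    refine ⟨h1.1, ?_⟩
    rw [gr_succ hm1]
    exact h1.2
  have hset : ({b | m < b ∧ lab d m m b} : Set ℕ).Nonempty := ⟨b, hmb, hlabd⟩
  obtain ⟨h1, h2⟩ := Nat.sInf_mem hset
  have h3 : sInf {b | m < b ∧ lab d m m b} ≤ b := Nat.sInf_le ⟨hmb, hlabd⟩
  set b1 := sInf {b | m < b ∧ lab d m m b} with hb1'
  have h4 : lab c m (m + 1) b1 := by
    have h5 : lab d m (m + 1) b1 := by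
      refine ⟨h2.1, ?_⟩
      rw [← gr_succ hm1]
      exact h2.2
    exact lab_congr (fun i h6 h7 => (hclear i (by omega) (by omega)).symm) h1 h5
  have h5 : ¬ b1 < c m := fun h6 => h.bas.N m b1 h1 h6 h4
  have h6 := hg m hm1 hm2
  unfold gf at h6
  have h7 : b1 ≤ max m b1 := le_max_right _ _
  omega

/-! ### The pair -/

section pair

variable (D : ℕ → (ℕ → ℕ) → Prop) (F : (ℕ → ℕ) → ℕ → ℕ)

/-- finite members decide -/
def Dec : Prop :=
  ∀ s k, Cond s k → ∀ n j, ∃ t l v, Cond t l ∧ k ≤ l ∧ (∀ i, i < k → t i = s i) ∧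
    (∀ c, InC c → (∀ i, i < l → c i = t i) → D j c) ∧
    (∀ c, InC c → (∀ j, D j c) → (∀ i, i < l → c i = t i) → F c n = v)

variable {D F}

theorem one (dec : Dec D F) {a b : ℕ → ℕ} {e k : ℕ} (j : ℕ) (ha : Cond a k) (hb : Semi b e k) :
    ∃ (a' b' : ℕ → ℕ) (k' : ℕ), Cond a' k' ∧ Semi b' k k' ∧ k < k' ∧ (∀ i, i < k → a' i = b i) ∧
      (∀ i, i < k → b' i = a i) ∧ a' k = 0 ∧ b' k ≠ 0 ∧ (∀ i, k < i → a' i = b' i) ∧
      (∀ c, InC c → (∀ i, i < k' → c i = a' i) → D j c) ∧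
      (∀ c, InC c → (∀ j, D j c) → (∀ i, i < k' → c i = a' i) → F c k < b' k) := by
  obtain ⟨b1, k1, h1, h2, h3⟩ := compl hb (β := k) le_rfl
  obtain ⟨t, l, v, h4, h5, h6, h7, h8⟩ := dec b1 k1 h1 k j
  have htk : t k = 0 := by
    rw [h6 k h2, h3 k le_rfl]
    exact hb.2.2.1.1 k le_rfl
  have hv : l < max l v + 1 := by
    have := le_max_left l v
    omega
  refine ⟨t, glue a t k (max l v + 1), max l v + 1, ⟨h4.1, h4.2.mono (by omega)⟩,
    phase ha h4 (by omega) htk hv, by omega, ?_, ?_, htk, ?_, ?_, ?_, ?_⟩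
  · intro i hi
    rw [h6 i (by omega), h3 i hi.le]
  · intro i hi
    exact glue_lt hi
  · rw [glue_eq]
    omega
  · intro i hi
    exact (glue_gt hi).symm
  · intro c hc h9
    exact h7 c hc fun i hi => h9 i (by omega)
  · intro c hc hD h9
    rw [glue_eq, h8 c hc hD fun i hi => h9 i (by omega)]
    have := le_max_right l v
    omega

/-- a valid state: `x`, `y`, the index of the missing witness of `y`, the length -/
def V (s : (ℕ → ℕ) × (ℕ → ℕ) × ℕ × ℕ) : Prop := Cond s.1 s.2.2.2 ∧ Semi s.2.1 s.2.2.1 s.2.2.2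

variable (D F)

/-- the next state -/
structure Nxt (j : ℕ) (s s' : (ℕ → ℕ) × (ℕ → ℕ) × ℕ × ℕ) : Prop where
  lt : s.2.2.2 < s'.2.2.2
  agx : ∀ i, i < s.2.2.2 → s'.1 i = s.1 i
  agy : ∀ i, i < s.2.2.2 → s'.2.1 i = s.2.1 i
  y0 : s'.2.1 s.2.2.2 = 0
  x0 : s'.1 s.2.2.2 ≠ 0
  rel : ∀ i, s.2.2.2 ≤ i → i < s'.2.2.2 → s'.1 i = s'.2.1 i ∨
    (s'.2.1 i = 0 ∧ ∀ c, InC c → (∀ j, D j c) → (∀ n, n < s'.2.2.2 → c n = s'.2.1 n) →
      F c i < s'.1 i) ∨
    (s'.1 i = 0 ∧ ∀ c, InC c → (∀ j, D j c) → (∀ n, n < s'.2.2.2 → c n = s'.1 n) →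
      F c i < s'.2.1 i)
  Dx : ∀ c, InC c → (∀ i, i < s'.2.2.2 → c i = s'.1 i) → D j c
  Dy : ∀ c, InC c → (∀ i, i < s'.2.2.2 → c i = s'.2.1 i) → D j c
  ty : ∃ u l, Cond u l ∧ s.2.2.2 ≤ l ∧ l ≤ s'.2.2.2 ∧ ∀ i, i < l → s'.2.1 i = u i

variable {D F}

theorem two (dec : Dec D F) (j : ℕ) (s : (ℕ → ℕ) × (ℕ → ℕ) × ℕ × ℕ) (hs : V s) :
    ∃ s', V s' ∧ Nxt D F j s s' := by
  obtain ⟨x, y, e, k⟩ := s
  obtain ⟨hx, hy⟩ := hs
  obtain ⟨y1, x1, k1, a1, a2, a3, a4, a5, a6, a7, a8, a9, a10⟩ := one dec j hx hy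
  obtain ⟨x2, y2, k2, b1, b2, b3, b4, b5, b6, b7, b8, b9, b10⟩ := one dec j a1 a2
  dsimp only at a1 a2 a3 a4 a5 a6 a7 a8 a9 a10
  refine ⟨(x2, y2, k1, k2), ⟨b1, b2⟩, ?_⟩
  constructor
  · exact a3.trans b3
  · intro i hi
    show x2 i = x i
    have hi' : i < k := hi
    rw [b4 i (by omega), a5 i hi']
  · intro i hi
    show y2 i = y i
    have hi' : i < k := hi
    rw [b5 i (by omega), a4 i hi']
  · show y2 k = 0
    rw [b5 k a3, a6]
  · show x2 k ≠ 0
    rw [b4 k a3]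
    exact a7
  · intro i hi1 hi2
    have hi1' : k ≤ i := hi1
    have hi2' : i < k2 := hi2
    show x2 i = y2 i ∨ (y2 i = 0 ∧ ∀ c, InC c → (∀ j, D j c) → (∀ n, n < k2 → c n = y2 n) →
      F c i < x2 i) ∨ (x2 i = 0 ∧ ∀ c, InC c → (∀ j, D j c) → (∀ n, n < k2 → c n = x2 n) →
      F c i < y2 i)
    rcases Nat.lt_or_ge i k1 with h1 | h1
    · rcases Nat.eq_or_lt_of_le hi1' with h2 | h2
      · subst h2
        refine Or.inr (Or.inl ⟨?_, ?_⟩)
        · rw [b5 k h1, a6]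
        · intro c hc hD h3
          rw [b4 k h1]
          refine a10 c hc hD fun n hn => ?_
          rw [h3 n (by omega), b5 n hn]
      · left
        rw [b4 i h1, b5 i h1, a8 i h2]
    · rcases Nat.eq_or_lt_of_le h1 with h2 | h2
      · subst h2
        exact Or.inr (Or.inr ⟨b6, b10⟩)
      · left
        exact b8 i h2
  · exact b9
  · intro c hc h3
    refine a9 c hc fun n hn => ?_
    have h4 : c n = y2 n := h3 n (show n < k2 by omega)
    rw [h4, b5 n hn]
  · exact ⟨y1, k1, a1, a3.le, b3.le, fun i hi => b5 i hi⟩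

theorem pair (dec : Dec D F) : ∃ x y, InC x ∧ InC y ∧ x 0 ≠ 0 ∧ y 0 = 0 ∧ (∀ j, D j x) ∧
    (∀ j, D j y) ∧ ∀ n, x n = y n ∨ (y n = 0 ∧ F y n < x n) ∨ (x n = 0 ∧ F x n < y n) := by
  choose g hg1 hg2 using two dec
  have hV0 : V ((fun _ => 0), (fun _ => 0), 0, 0) := ⟨cond_zero, cond_zero.semi⟩
  let f : ℕ → {s // V s} := fun j =>
    Nat.rec ⟨((fun _ => 0), (fun _ => 0), 0, 0), hV0⟩ (fun j s => ⟨g j s.1 s.2, hg1 j s.1 s.2⟩) j
  have hf0 : (f 0).1 = ((fun _ => 0), (fun _ => 0), 0, 0) := rfl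
  have hstep : ∀ j, Nxt D F j (f j).1 (f (j + 1)).1 := fun j => hg2 j (f j).1 (f j).2
  set K : ℕ → ℕ := fun j => (f j).1.2.2.2 with hK
  set X : ℕ → ℕ → ℕ := fun j => (f j).1.1 with hX
  set Y : ℕ → ℕ → ℕ := fun j => (f j).1.2.1 with hY
  have hK0 : K 0 = 0 := by
    show (f 0).1.2.2.2 = 0
    rw [hf0]
  have hKlt : ∀ j, K j < K (j + 1) := fun j => (hstep j).lt
  have hKmono : StrictMono K := strictMono_nat_of_lt_succ hKlt
  have hKge : ∀ j, j ≤ K j := fun j => hKmono.id_le j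
  have hagX : ∀ j d i, i < K j → X (j + d) i = X j i := by
    intro j d i hi
    induction d with
    | zero => rfl
    | succ d ih =>
      rw [← ih]
      exact (hstep (j + d)).agx i (hi.trans_le (hKmono.monotone (Nat.le_add_right j d)))
  have hagY : ∀ j d i, i < K j → Y (j + d) i = Y j i := by
    intro j d i hi
    induction d with
    | zero => rfl
    | succ d ih =>
      rw [← ih]
      exact (hstep (j + d)).agy i (hi.trans_le (hKmono.monotone (Nat.le_add_right j d)))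
  have hlX : ∀ j i, i < K j → X (i + 1) i = X j i := by
    intro j i hi
    have h1 : i < K (i + 1) := lt_of_lt_of_le (Nat.lt_succ_self i) (hKge (i + 1))
    rw [← hagX (i + 1) j i h1, ← hagX j (i + 1) i hi, Nat.add_comm]
  have hlY : ∀ j i, i < K j → Y (i + 1) i = Y j i := by
    intro j i hi
    have h1 : i < K (i + 1) := lt_of_lt_of_le (Nat.lt_succ_self i) (hKge (i + 1))
    rw [← hagY (i + 1) j i h1, ← hagY j (i + 1) i hi, Nat.add_comm]
  have hCx : InC fun i => X (i + 1) i := by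
    apply lim
    intro n
    exact ⟨X n, K n, hKge n, (f n).2.1, fun i hi => hlX n i hi⟩
  have hCy : InC fun i => Y (i + 1) i := by
    apply lim
    intro n
    obtain ⟨u, l, h1, h2, h3, h4⟩ := (hstep n).ty
    refine ⟨u, l, (hKge n).trans h2, h1, fun i hi => ?_⟩
    have h5 : i < K (n + 1) := lt_of_lt_of_le hi h3
    show Y (i + 1) i = u i
    rw [hlY (n + 1) i h5]
    exact h4 i hi
  have hDx : ∀ j, D j fun i => X (i + 1) i := fun j =>
    (hstep j).Dx _ hCx fun i hi => hlX (j + 1) i hi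
  have hDy : ∀ j, D j fun i => Y (i + 1) i := fun j =>
    (hstep j).Dy _ hCy fun i hi => hlY (j + 1) i hi
  refine ⟨fun i => X (i + 1) i, fun i => Y (i + 1) i, hCx, hCy, ?_, ?_, hDx, hDy, ?_⟩
  · have h1 := (hstep 0).x0
    have h2 : (f 0).1.2.2.2 = 0 := hK0
    rw [h2] at h1
    exact h1
  · have h1 := (hstep 0).y0
    have h2 : (f 0).1.2.2.2 = 0 := hK0
    rw [h2] at h1
    exact h1
  · intro n
    have hex : ∃ j, n < K j := ⟨n + 1, lt_of_lt_of_le (Nat.lt_succ_self n) (hKge (n + 1))⟩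
    obtain ⟨j, hj1, hj2⟩ : ∃ j, K j ≤ n ∧ n < K (j + 1) := by
      classical
      have h1 := Nat.find_spec hex
      rcases Nat.eq_zero_or_pos (Nat.find hex) with h2 | h2
      · rw [h2, hK0] at h1
        exact absurd h1 (Nat.not_lt_zero _)
      · obtain ⟨j, hj⟩ := Nat.exists_eq_succ_of_ne_zero h2.ne'
        refine ⟨j, ?_, ?_⟩
        · have h3 := Nat.find_min hex (m := j) (by omega)
          exact not_lt.mp h3
        · rw [hj] at h1
          exact h1
    have hx : X (n + 1) n = X (j + 1) n := hlX (j + 1) n hj2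
    have hy : Y (n + 1) n = Y (j + 1) n := hlY (j + 1) n hj2
    show X (n + 1) n = Y (n + 1) n ∨ (Y (n + 1) n = 0 ∧ F (fun i => Y (i + 1) i) n < X (n + 1) n) ∨
      (X (n + 1) n = 0 ∧ F (fun i => X (i + 1) i) n < Y (n + 1) n)
    rw [hx, hy]
    rcases (hstep j).rel n hj1 hj2 with h1 | ⟨h1, h2⟩ | ⟨h1, h2⟩
    · exact Or.inl h1
    · exact Or.inr (Or.inl ⟨h1, h2 _ hCy hDy fun i hi => hlY (j + 1) i hi⟩)
    · exact Or.inr (Or.inr ⟨h1, h2 _ hCx hDx fun i hi => hlX (j + 1) i hi⟩)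

end pair

end Pool.Agent.H96.BN
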