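import Pool.Agent.H96.BN.Defs
import Pool.Agent.H96.BN.Pair

/-!
# Borel non-normality of the box power of `ω + 1` (`MP_d75401_gt`): the topology
-/

set_option autoImplicit false

open Topology Set

namespace Pool.Agent.H96.BN

/-! ### Coding -/

/-- the point with code `c` -/
def pt (c : ℕ → ℕ) : ℕ → ℕ∞ := fun n => if c n = 0 then ⊤ else (c n : ℕ∞)

/-- the code of a point -/
def cd (z : ℕ → ℕ∞) : ℕ → ℕ := fun n => (z n).toNat

theorem pt_zero {c : ℕ → ℕ} {n : ℕ} (h : c n = 0) : pt c n = ⊤ := if_pos h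

theorem pt_ne {c : ℕ → ℕ} {n : ℕ} (h : c n ≠ 0) : pt c n = (c n : ℕ∞) := if_neg h

theorem cd_pt (c : ℕ → ℕ) : cd (pt c) = c := by
  funext n
  unfold cd
  by_cases h : c n = 0
  · rw [pt_zero h, ENat.toNat_top, h]
  · rw [pt_ne h, ENat.toNat_natCast]

/-- the set -/
def CC : Set (ℕ → ℕ∞) := {z | ∃ c, InC c ∧ pt c = z}

theorem pt_mem {c : ℕ → ℕ} (h : InC c) : pt c ∈ CC := ⟨c, h, rfl⟩

theorem cd_mem {z : ℕ → ℕ∞} (h : z ∈ CC) : InC (cd z) ∧ pt (cd z) = z := by
  obtain ⟨c, h1, rfl⟩ := h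
  rw [cd_pt]
  exact ⟨h1, rfl⟩

theorem nbd_CC {z w : ℕ → ℕ∞} (hw : w ∈ CC) (h : w ∈ nbd z (gf (cd z))) : w = z := by
  obtain ⟨c, hc, rfl⟩ := hw
  have hz : ∀ n, cd z n ≠ 0 → c n = cd z n := by
    intro n hn
    have h1 : z n ≠ ⊤ := by
      intro h2
      apply hn
      unfold cd
      rw [h2, ENat.toNat_top]
    have h2 := (h n).1 h1
    have h3 := congrFun (cd_pt c) n
    unfold cd at h3 ⊢
    rw [h2] at h3
    exact h3.symm
  have key := close hc hz (fun n h1 h2 => by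
    have h3 := h n
    by_cases h4 : z n = ⊤
    · have h5 := h3.2 h4
      rw [pt_ne h2] at h5
      exact_mod_cast h5
    · exfalso
      have h5 := h3.1 h4
      have h6 : c n = cd z n := by
        have h7 := congrFun (cd_pt c) n
        unfold cd at h7 ⊢
        rw [h5] at h7
        exact h7.symm
      exact h2 (h6.trans h1))
  funext n
  by_cases h4 : z n = ⊤
  · rw [h4]
    apply pt_zero
    rw [key]
    unfold cd
    rw [h4, ENat.toNat_top]
  · exact (h n).1 h4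

theorem mem_nbd (z : ℕ → ℕ∞) {g : ℕ → ℕ} : z ∈ nbd z g :=
  fun n => ⟨fun _ => rfl, fun h => by rw [h]; exact ENat.natCast_lt_top _⟩

theorem isOpen_nbd (z : ℕ → ℕ∞) (g : ℕ → ℕ) : IsOpen[boxTop] (nbd z g) := by
  apply TopologicalSpace.isOpen_generateFrom_of_mem
  classical
  refine ⟨fun n => if z n = ⊤ then Ioi (g n : ℕ∞) else {z n}, ?_, ?_⟩
  · intro n
    dsimp only
    split_ifs with h
    · exact isOpen_Ioi
    · exact ENat.isOpen_singleton h
  · ext w
    simp only [nbd, mem_ofPred_eq, mem_pi, mem_univ, forall_true_left]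
    refine forall_congr' fun n => ?_
    split_ifs with h
    · simp [h]
    · simp [h]

theorem isClosed_of_subset {S : Set (ℕ → ℕ∞)} (h : S ⊆ CC) : IsClosed[boxTop] S := by
  refine @IsClosed.mk _ boxTop _ ?_
  rw [@isOpen_iff_forall_mem_open _ boxTop]
  intro z hz
  refine ⟨nbd z (gf (cd z)), ?_, isOpen_nbd _ _, mem_nbd z⟩
  intro w hw hwS
  exact hz (by rw [← nbd_CC (h hwS) hw]; exact hwS)

/-! ### The topology of the set -/

theorem isOpen_cyl (l : ℕ) (t : ℕ → ℕ) : IsOpen[discTop] {z : ℕ → ℕ∞ | ∀ i, i < l → cd z i = t i} := by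
  have h1 : {z : ℕ → ℕ∞ | ∀ i, i < l → cd z i = t i} =
      Set.pi (↑(Finset.range l)) fun i => {a : ℕ∞ | a.toNat = t i} := by
    ext z
    simp [cd]
  rw [h1]
  refine @isOpen_set_pi ℕ (fun _ => ℕ∞) (fun _ => ⊥) _ _ (Finset.finite_toSet _) fun a _ => ?_
  exact @isOpen_discrete ℕ∞ ⊥ (discreteTopology_bot ℕ∞) _

theorem exists_cyl {U : Set (ℕ → ℕ∞)} (hU : IsOpen[discTop] U) {z : ℕ → ℕ∞} (hz : z ∈ CC)
    (hzU : z ∈ U) : ∃ l, ∀ w ∈ CC, (∀ i, i < l → cd w i = cd z i) → w ∈ U := by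
  obtain ⟨I, u, h1, h2⟩ :=
    (@isOpen_pi_iff ℕ (fun _ => ℕ∞) (fun _ => ⊥) U).mp hU z hzU
  refine ⟨I.sup id + 1, fun w hw h3 => h2 fun i hi => ?_⟩
  have h4 : i ≤ I.sup id := Finset.le_sup (f := id) hi
  have h5 := h3 i (by omega)
  have h6 : w i = z i := by
    have h7 := congrFun (cd_mem hw).2 i
    have h8 := congrFun (cd_mem hz).2 i
    rw [← h7, ← h8]
    unfold pt
    rw [h5]
  rw [h6]
  exact (h1 i hi).2

/-- fusion -/
theorem fus {D : ℕ → (ℕ → ℕ) → Prop}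
    (href : ∀ j s k, Cond s k → ∃ t l, Cond t l ∧ k < l ∧ (∀ i, i < k → t i = s i) ∧
      ∀ c, InC c → (∀ i, i < l → c i = t i) → D j c) {s : ℕ → ℕ} {k : ℕ} (hs : Cond s k) :
    ∃ c, InC c ∧ (∀ i, i < k → c i = s i) ∧ ∀ j, D j c := by
  choose t l h1 h2 h3 h4 using href
  let f : ℕ → {p : (ℕ → ℕ) × ℕ // Cond p.1 p.2} := fun j =>
    Nat.rec ⟨(s, k), hs⟩ (fun j p => ⟨(t j p.1.1 p.1.2 p.2, l j p.1.1 p.1.2 p.2),
      h1 j p.1.1 p.1.2 p.2⟩) j
  set K : ℕ → ℕ := fun j => (f j).1.2 with hK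
  set X : ℕ → ℕ → ℕ := fun j => (f j).1.1 with hX
  have hKlt : ∀ j, K j < K (j + 1) := fun j => h2 j (f j).1.1 (f j).1.2 (f j).2
  have hKmono : StrictMono K := strictMono_nat_of_lt_succ hKlt
  have hKge : ∀ j, j ≤ K j := fun j => hKmono.id_le j
  have hag : ∀ j d i, i < K j → X (j + d) i = X j i := by
    intro j d i hi
    induction d with
    | zero => rfl
    | succ d ih =>
      rw [← ih]
      exact h3 (j + d) (f (j + d)).1.1 (f (j + d)).1.2 (f (j + d)).2 i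
        (hi.trans_le (hKmono.monotone (Nat.le_add_right j d)))
  have hl : ∀ j i, i < K j → X (i + 1) i = X j i := by
    intro j i hi
    have h1 : i < K (i + 1) := lt_of_lt_of_le (Nat.lt_succ_self i) (hKge (i + 1))
    rw [← hag (i + 1) j i h1, ← hag j (i + 1) i hi, Nat.add_comm]
  have hC : InC fun i => X (i + 1) i := by
    apply lim
    intro n
    exact ⟨X n, K n, hKge n, (f n).2, fun i hi => hl n i hi⟩
  refine ⟨fun i => X (i + 1) i, hC, fun i hi => hl 0 i hi, fun j => ?_⟩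
  exact h4 j (f j).1.1 (f j).1.2 (f j).2 _ hC fun i hi => hl (j + 1) i hi

/-- refinement into a dense open set -/
theorem ref {E : Set CC} (hE1 : @IsOpen CC (discTop.induced Subtype.val) E)
    (hE2 : @Dense CC (discTop.induced Subtype.val) E) (s : ℕ → ℕ) (k : ℕ) (hs : Cond s k) (N : ℕ) :
    ∃ t l, Cond t l ∧ N ≤ l ∧ k ≤ l ∧ (∀ i, i < k → t i = s i) ∧
      ∀ c (hc : InC c), (∀ i, i < l → c i = t i) → (⟨pt c, pt_mem hc⟩ : CC) ∈ E := by
  let τ : TopologicalSpace CC := discTop.induced Subtype.val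
  have ho : IsOpen {x : CC | ∀ i, i < k → cd x.1 i = s i} := by
    exact (@isOpen_induced_iff _ _ discTop _ _).mpr ⟨_, isOpen_cyl k s, rfl⟩
  obtain ⟨x, hx1, hx2⟩ := hE2.inter_open_nonempty _ ho
    ⟨⟨pt s, pt_mem hs.1⟩, fun i _ => by
      show cd (pt s) i = s i
      rw [cd_pt]⟩
  obtain ⟨U, hU1, hU2⟩ := (@isOpen_induced_iff _ _ discTop _ _).mp hE1
  have hxU : x.1 ∈ U := by
    have : x ∈ Subtype.val ⁻¹' U := by
      rw [hU2]
      exact hx2
    exact this
  obtain ⟨l0, hl0⟩ := exists_cyl hU1 x.2 hxU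
  obtain ⟨t, l, h1, h2, h3⟩ := exists_cond (cd_mem x.2).1 (max (max l0 k) N)
  have hl : l0 ≤ l ∧ k ≤ l ∧ N ≤ l := by
    have a1 := le_max_left (max l0 k) N
    have a2 := le_max_right (max l0 k) N
    have a3 := le_max_left l0 k
    have a4 := le_max_right l0 k
    omega
  refine ⟨t, l, h1, hl.2.2, hl.2.1, ?_, ?_⟩
  · intro i hi
    rw [h3 i (by omega)]
    exact hx1 i hi
  · intro c hc h4
    have h5 : pt c ∈ U := hl0 _ (pt_mem hc) fun i hi => by
      rw [cd_pt, h4 i (by omega), h3 i (by omega)]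
    have h6 : (⟨pt c, pt_mem hc⟩ : CC) ∈ (Subtype.val ⁻¹' U : Set CC) := h5
    rw [hU2] at h6
    exact h6

/-- Baire measurable functions: finite members decide -/
theorem exists_dec {F : (ℕ → ℕ∞) → ℕ → ℕ} (hF : BaireOn CC F) {R : Set (ℕ → ℕ∞)}
    (hR : ComeagerIn CC R) :
    ∃ D, (Dec D fun c => F (pt c)) ∧ ∀ c, InC c → (∀ j, D j c) → pt c ∈ R := by
  let τ : TopologicalSpace CC := discTop.induced Subtype.val
  have h1 : ∀ n v, ∃ O : Set CC, IsOpen O ∧ ∀ᶠ x : CC in residual CC, (F x.1 n = v ↔ x ∈ O) := by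
    intro n v
    obtain ⟨O, hO1, hO2⟩ := (hF n v).residualEq_isOpen
    exact ⟨O, hO1, Filter.eventuallyEq_set.mp hO2⟩
  choose O hO1 hO2 using h1
  have h2 : ∀ᶠ x : CC in residual CC, ∀ n v, (F x.1 n = v ↔ x ∈ O n v) := by
    rw [eventually_countable_forall]
    intro n
    rw [eventually_countable_forall]
    exact hO2 n
  have h2' : ∀ᶠ x : CC in residual CC, (∀ n v, (F x.1 n = v ↔ x ∈ O n v)) ∧ x.1 ∈ R :=
    h2.and hR
  obtain ⟨S, hS1, hS2, hS3, hS4⟩ := mem_residual_iff.mp h2'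
  obtain ⟨E, hE⟩ := (hS3.insert univ).exists_eq_range ⟨univ, mem_insert _ _⟩
  have hEo : ∀ j, IsOpen (E j) := by
    intro j
    have h3 : E j ∈ insert univ S := by
      rw [hE]
      exact mem_range_self j
    rcases h3 with h3 | h3
    · rw [h3]
      exact isOpen_univ
    · exact hS1 _ h3
  have hEd : ∀ j, Dense (E j) := by
    intro j
    have h3 : E j ∈ insert univ S := by
      rw [hE]
      exact mem_range_self j
    rcases h3 with h3 | h3
    · rw [h3]
      exact dense_univ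
    · exact hS2 _ h3
  have hER' : ∀ x : CC, (∀ j, x ∈ E j) → (∀ n v, (F x.1 n = v ↔ x ∈ O n v)) ∧ x.1 ∈ R := by
    intro x hx
    apply hS4
    intro T hT
    have h3 : T ∈ range E := by
      rw [← hE]
      exact mem_insert_of_mem _ hT
    obtain ⟨j, rfl⟩ := h3
    exact hx j
  have hER : ∀ x : CC, (∀ j, x ∈ E j) → ∀ n v, (F x.1 n = v ↔ x ∈ O n v) :=
    fun x hx => (hER' x hx).1
  refine ⟨fun j c => ∀ hc : InC c, (⟨pt c, pt_mem hc⟩ : CC) ∈ E j, ?_,
    fun c hc h => (hER' ⟨pt c, pt_mem hc⟩ fun j => h j hc).2⟩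
  have href : ∀ j s k, Cond s k → ∃ t l, Cond t l ∧ k < l ∧ (∀ i, i < k → t i = s i) ∧
      ∀ c, InC c → (∀ i, i < l → c i = t i) →
        ∀ hc : InC c, (⟨pt c, pt_mem hc⟩ : CC) ∈ E j := by
    intro j s k hs
    obtain ⟨t, l, a1, a2, a3, a4, a5⟩ := ref (hEo j) (hEd j) s k hs (k + 1)
    exact ⟨t, l, a1, a2, a4, fun c _ h hc => a5 c hc h⟩
  intro s k hs n j
  obtain ⟨c0, hc0, hc0s, hc0D⟩ := fus href hs
  have hx : ∀ j, (⟨pt c0, pt_mem hc0⟩ : CC) ∈ E j := fun j => hc0D j hc0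
  have hxO := (hER _ hx n (F (pt c0) n)).mp rfl
  obtain ⟨U, hU1, hU2⟩ := (@isOpen_induced_iff _ _ discTop _ _).mp (hO1 n (F (pt c0) n))
  have hxU : pt c0 ∈ U := by
    have : (⟨pt c0, pt_mem hc0⟩ : CC) ∈ Subtype.val ⁻¹' U := by
      rw [hU2]
      exact hxO
    exact this
  obtain ⟨l0, hl0⟩ := exists_cyl hU1 (pt_mem hc0) hxU
  obtain ⟨t1, l1, h3, h4, h5⟩ := exists_cond hc0 (max l0 k)
  have a1 := le_max_left l0 k
  have a2 := le_max_right l0 k
  obtain ⟨t, l, b1, b2, b3, b4⟩ := href j t1 l1 h3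
  refine ⟨t, l, F (pt c0) n, b1, by omega, ?_, b4, ?_⟩
  · intro i hi
    rw [b3 i (by omega), h5 i (by omega), hc0s i hi]
  · intro c hc hD h6
    have h7 : pt c ∈ U := hl0 _ (pt_mem hc) fun i hi => by
      rw [cd_pt, cd_pt, h6 i (by omega), b3 i (by omega), h5 i (by omega)]
    have h8 : (⟨pt c, pt_mem hc⟩ : CC) ∈ (Subtype.val ⁻¹' U : Set CC) := h7
    rw [hU2] at h8
    exact (hER ⟨pt c, pt_mem hc⟩ (fun j => hD j hc) n _).mpr h8

/-- the two closed sets are not separated -/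
theorem not_sep {F : (ℕ → ℕ∞) → ℕ → ℕ} (hF : BaireOn CC F) {R : Set (ℕ → ℕ∞)}
    (hR : ComeagerIn CC R) :
    ∃ x ∈ CC ∩ R, ∃ y ∈ CC ∩ R, x 0 ≠ ⊤ ∧ y 0 = ⊤ ∧ ¬ Disjoint (nbd x (F x)) (nbd y (F y)) := by
  obtain ⟨D, hD, hDR⟩ := exists_dec hF hR
  obtain ⟨x, y, hx, hy, hx0, hy0, hDx, hDy, h⟩ := pair hD
  refine ⟨pt x, ⟨pt_mem hx, hDR x hx hDx⟩, pt y, ⟨pt_mem hy, hDR y hy hDy⟩, ?_, pt_zero hy0, ?_⟩
  · rw [pt_ne hx0]
    exact ENat.natCast_ne_top _
  · rw [Set.not_disjoint_iff]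
    refine ⟨fun n => if x n = 0 then pt y n else pt x n, ?_, ?_⟩
    · intro n
      constructor
      · intro h1
        have h2 : x n ≠ 0 := fun h3 => h1 (pt_zero h3)
        show (if x n = 0 then pt y n else pt x n) = pt x n
        rw [if_neg h2]
      · intro h1
        have h2 : x n = 0 := by
          by_contra h3
          rw [pt_ne h3] at h1
          exact ENat.natCast_ne_top _ h1
        show ((F (pt x) n : ℕ) : ℕ∞) < if x n = 0 then pt y n else pt x n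
        rw [if_pos h2]
        by_cases h3 : y n = 0
        · rw [pt_zero h3]
          exact ENat.natCast_lt_top _
        · rw [pt_ne h3]
          rcases h n with h4 | ⟨h4, _⟩ | ⟨_, h4⟩
          · exact absurd (h4.symm.trans h2) h3
          · exact absurd h4 h3
          · exact_mod_cast h4
    · intro n
      constructor
      · intro h1
        have h2 : y n ≠ 0 := fun h3 => h1 (pt_zero h3)
        show (if x n = 0 then pt y n else pt x n) = pt y n
        by_cases h3 : x n = 0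
        · rw [if_pos h3]
        · rw [if_neg h3]
          rcases h n with h4 | ⟨h4, _⟩ | ⟨h4, _⟩
          · rw [pt_ne h3, pt_ne h2, h4]
          · exact absurd h4 h2
          · exact absurd h4 h3
      · intro h1
        have h2 : y n = 0 := by
          by_contra h3
          rw [pt_ne h3] at h1
          exact ENat.natCast_ne_top _ h1
        show ((F (pt y) n : ℕ) : ℕ∞) < if x n = 0 then pt y n else pt x n
        by_cases h3 : x n = 0
        · rw [if_pos h3, h1]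
          exact ENat.natCast_lt_top _
        · rw [if_neg h3, pt_ne h3]
          rcases h n with h4 | ⟨_, h4⟩ | ⟨h4, _⟩
          · exact absurd (h4.trans h2) h3
          · exact_mod_cast h4
          · exact absurd h4 h3

end Pool.Agent.H96.BN
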